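import Mathlib

/-!
# Chains of rational curves: the generic part (Helper91, row G7a of PROJECT BD)

For `τ : ℕ → A`, `z : ℕ → ι → A` (vertices `z 0 = x`, …, `z e = y`) the curves
`phi c = ∑ i ≤ e, mu c i * z i * s ^ i`, and the extraction of the segments of the chain from a
stable zero of the chain equations.
-/

set_option autoImplicit false

open MvPolynomial

namespace ZC

universe u v w

section mu

variable {A : Type u} [CommRing A]

/-- The monomials in the parameters `τ`. -/
noncomputable def mu (τ : ℕ → A) (c i : ℕ) : A :=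
  if i ≤ c then ∏ k ∈ Finset.Ioc i c, τ k ^ (k - i) else ∏ k ∈ Finset.Ioo c i, τ k ^ (i - k)

theorem mu_self (τ : ℕ → A) (c : ℕ) : mu τ c c = 1 := by
  rw [mu, if_pos le_rfl, Finset.Ioc_self, Finset.prod_empty]

theorem mu_succ (τ : ℕ → A) (c : ℕ) : mu τ c (c + 1) = 1 := by
  have h : Finset.Ioo c (c + 1) = ∅ := by
    ext k
    simp only [Finset.mem_Ioo, Finset.notMem_empty, iff_false]
    omega
  rw [mu, if_neg (by omega), h, Finset.prod_empty]

/-- `mu τ c i = 0` for `i < c` if `τ c = 0`. -/
theorem mu_eq_zero_lt {τ : ℕ → A} {c i k : ℕ} (hik : i < k) (hkc : k ≤ c) (hk : τ k = 0) :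
    mu τ c i = 0 := by
  rw [mu, if_pos (by omega)]
  refine Finset.prod_eq_zero (Finset.mem_Ioc.2 ⟨hik, hkc⟩) ?_
  rw [hk, zero_pow (by omega)]

theorem mu_eq_zero_gt {τ : ℕ → A} {c i k : ℕ} (hck : c < k) (hki : k < i) (hk : τ k = 0) :
    mu τ c i = 0 := by
  rw [mu, if_neg (by omega)]
  refine Finset.prod_eq_zero (Finset.mem_Ioo.2 ⟨hck, hki⟩) ?_
  rw [hk, zero_pow (by omega)]

theorem mu_ne_zero [IsDomain A] {τ : ℕ → A} {c i : ℕ} (hci : c ≤ i)
    (h : ∀ k, c < k → k < i → τ k ≠ 0) : mu τ c i ≠ 0 := by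
  rcases hci.eq_or_lt with rfl | hlt
  · rw [mu_self]
    exact one_ne_zero
  · rw [mu, if_neg (by omega)]
    refine Finset.prod_ne_zero_iff.2 fun k hk => ?_
    rw [Finset.mem_Ioo] at hk
    exact pow_ne_zero _ (h k hk.1 hk.2)

/-- The relation between `mu (c + 1)` and `mu c`. -/
theorem mu_step (τ : ℕ → A) (c i : ℕ) :
    mu τ (c + 1) i * τ (c + 1) ^ i = τ (c + 1) ^ (c + 1) * mu τ c i := by
  rcases Nat.lt_trichotomy i (c + 1) with h | h | h
  · have h1 : Finset.Ioc i (c + 1) = insert (c + 1) (Finset.Ioc i c) := by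
      ext k
      simp only [Finset.mem_Ioc, Finset.mem_insert]
      omega
    have h2 : c + 1 ∉ Finset.Ioc i c := by
      rw [Finset.mem_Ioc]
      omega
    rw [mu, mu, if_pos (by omega), if_pos (by omega), h1, Finset.prod_insert h2]
    have h3 : τ (c + 1) ^ (c + 1) = τ (c + 1) ^ (c + 1 - i) * τ (c + 1) ^ i := by
      rw [← pow_add]
      congr 1
      omega
    rw [h3]
    ring
  · subst h
    rw [mu_self, mu_succ, one_mul, mul_one]
  · have h1 : Finset.Ioo c i = insert (c + 1) (Finset.Ioo (c + 1) i) := by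
      ext k
      simp only [Finset.mem_Ioo, Finset.mem_insert]
      omega
    have h2 : c + 1 ∉ Finset.Ioo (c + 1) i := by
      rw [Finset.mem_Ioo]
      omega
    rw [mu, mu, if_neg (by omega), if_neg (by omega), h1, Finset.prod_insert h2]
    have h3 : τ (c + 1) ^ i = τ (c + 1) ^ (c + 1) * τ (c + 1) ^ (i - (c + 1)) := by
      rw [← pow_add]
      congr 1
      omega
    rw [h3]
    ring

theorem map_mu {B : Type v} [CommRing B] (g : A →+* B) (τ : ℕ → A) (c i : ℕ) :
    g (mu τ c i) = mu (fun k => g (τ k)) c i := by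
  rw [mu, mu]
  split_ifs
  · rw [map_prod]
    exact Finset.prod_congr rfl fun k _ => map_pow _ _ _
  · rw [map_prod]
    exact Finset.prod_congr rfl fun k _ => map_pow _ _ _

/-- The curve with parameter `c`. -/
noncomputable def phi {ι : Type v} (τ : ℕ → A) (z : ℕ → ι → A) (e c : ℕ) (b : ι) : Polynomial A :=
  ∑ i ∈ Finset.range (e + 1), Polynomial.C (mu τ c i * z i b) * Polynomial.X ^ i

theorem coeff_phi {ι : Type v} (τ : ℕ → A) (z : ℕ → ι → A) (e c : ℕ) (b : ι) (i : ℕ) :
    (phi τ z e c b).coeff i = if i ≤ e then mu τ c i * z i b else 0 := by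
  rw [phi, Polynomial.finsetSum_coeff]
  simp only [Polynomial.coeff_C_mul_X_pow]
  rw [Finset.sum_ite_eq (Finset.range (e + 1)) i]
  simp only [Finset.mem_range, Nat.lt_succ_iff]

theorem map_phi {ι : Type w} {B : Type v} [CommRing B] (g : A →+* B) (τ : ℕ → A) (z : ℕ → ι → A)
    (e c : ℕ) (b : ι) :
    (phi τ z e c b).map g = phi (fun k => g (τ k)) (fun k b => g (z k b)) e c b := by
  ext i
  rw [Polynomial.coeff_map, coeff_phi, coeff_phi]
  split_ifs
  · rw [map_mul, map_mu]
  · rw [map_zero]

/-- Rescaling of the parameter of the curve. -/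
theorem phi_comp {ι : Type v} (τ : ℕ → A) (z : ℕ → ι → A) (e c : ℕ) (b : ι) :
    (phi τ z e (c + 1) b).comp (Polynomial.C (τ (c + 1)) * Polynomial.X) =
      Polynomial.C (τ (c + 1) ^ (c + 1)) * phi τ z e c b := by
  ext i
  rw [Polynomial.comp_C_mul_X_coeff, Polynomial.coeff_C_mul, coeff_phi, coeff_phi]
  split_ifs
  · linear_combination (z i b) * mu_step τ c i
  · rw [zero_mul, mul_zero]

end mu

section form

variable {L : Type u} [CommRing L] {A : Type u} [CommRing A] [Algebra L A] {m : ℕ}

/-- A form evaluated at a multiple. -/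
theorem aeval_smul_form {B : Type v} [CommRing B] [Algebra L B] {d : ℕ}
    {f : MvPolynomial (Fin m) L} (hf : f.IsHomogeneous d) (c : B) (x : Fin m → B) :
    aeval (fun i => c * x i) f = c ^ d * aeval x f := by
  rw [aeval_def, aeval_def, eval₂_eq', eval₂_eq', Finset.mul_sum]
  refine Finset.sum_congr rfl fun t ht => ?_
  have hd : ∑ i, t i = d := by
    have h := hf (mem_support_iff.1 ht)
    rw [← h, Finsupp.weight_apply, Finsupp.sum_fintype _ _ (fun i => by simp)]
    simp
  have : ∏ i, (c * x i) ^ t i = c ^ d * ∏ i, x i ^ t i := by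
    rw [← hd, ← Finset.prod_pow_eq_pow_sum, ← Finset.prod_mul_distrib]
    exact Finset.prod_congr rfl fun i _ => mul_pow _ _ _
  rw [this]
  ring

/-- Substitution commutes with composition. -/
theorem aeval_comp_form (f : MvPolynomial (Fin m) L) (p : Fin m → Polynomial A)
    (q : Polynomial A) : (aeval p f).comp q = aeval (fun i => (p i).comp q) f := by
  have h2 := MvPolynomial.comp_aeval_apply p
    (((Polynomial.aeval q : Polynomial A →ₐ[A] Polynomial A).restrictScalars L)) f
  exact h2

/-- The coefficients of `f (phi (c + 1))` and `f (phi c)`. -/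
theorem coeff_step {d : ℕ} {f : MvPolynomial (Fin m) L} (hf : f.IsHomogeneous d) (τ : ℕ → A)
    (z : ℕ → Fin m → A) (e c j : ℕ) :
    (aeval (phi τ z e (c + 1)) f).coeff j * τ (c + 1) ^ j =
      τ (c + 1) ^ (d * (c + 1)) * (aeval (phi τ z e c) f).coeff j := by
  have h1 : (aeval (phi τ z e (c + 1)) f).comp (Polynomial.C (τ (c + 1)) * Polynomial.X) =
      Polynomial.C (τ (c + 1) ^ (c + 1)) ^ d * aeval (phi τ z e c) f := by
    rw [← aeval_smul_form hf, aeval_comp_form]
    congr 1
    congr 1
    funext b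
    exact phi_comp τ z e c b
  have h2 := congrArg (fun q => Polynomial.coeff q j) h1
  simp only [Polynomial.comp_C_mul_X_coeff] at h2
  rw [h2, ← Polynomial.C_pow, Polynomial.coeff_C_mul, ← pow_mul, mul_comm (c + 1) d]

/-- The constant coefficient of `f (p)`. -/
theorem coeff_zero_form (f : MvPolynomial (Fin m) L) (p : Fin m → Polynomial A) :
    (aeval p f).coeff 0 = aeval (fun i => (p i).coeff 0) f := by
  have h2 := MvPolynomial.comp_aeval_apply p
    (((Polynomial.aeval (0 : A) : Polynomial A →ₐ[A] A).restrictScalars L)) f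
  have h3 : ∀ q : Polynomial A, ((Polynomial.aeval (0 : A) : Polynomial A →ₐ[A] A).restrictScalars L)
      q = q.coeff 0 := by
    intro q
    change Polynomial.aeval (0 : A) q = q.coeff 0
    rw [Polynomial.coe_aeval_eq_eval, Polynomial.coeff_zero_eq_eval_zero]
  simp only [h3] at h2
  exact h2

/-- The degree of `f (p)`. -/
theorem natDegree_form {d N : ℕ} {f : MvPolynomial (Fin m) L} (hf : f.IsHomogeneous d)
    (p : Fin m → Polynomial A) (hp : ∀ i, (p i).natDegree ≤ N) :
    (aeval p f).natDegree ≤ d * N := by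
  rw [aeval_def, eval₂_eq']
  refine Polynomial.natDegree_sum_le_of_forall_le _ _ fun t ht => ?_
  have hd : ∑ i, t i = d := by
    have h := hf (mem_support_iff.1 ht)
    rw [← h, Finsupp.weight_apply, Finsupp.sum_fintype _ _ (fun i => by simp)]
    simp
  refine (Polynomial.natDegree_mul_le).trans ?_
  have h1 : ((algebraMap L (Polynomial A)) (coeff t f)).natDegree = 0 := by
    rw [Polynomial.algebraMap_apply, Polynomial.natDegree_C]
  rw [h1, zero_add]
  refine (Polynomial.natDegree_prod_le _ _).trans ?_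
  rw [← hd, Finset.sum_mul]
  refine Finset.sum_le_sum fun i _ => (Polynomial.natDegree_pow_le).trans ?_
  exact Nat.mul_le_mul_left _ (hp i)

/-- The top coefficient of `f (p)`. -/
theorem coeff_top_form {d N : ℕ} {f : MvPolynomial (Fin m) L} (hf : f.IsHomogeneous d)
    (p : Fin m → Polynomial A) (hp : ∀ i, (p i).natDegree ≤ N) :
    (aeval p f).coeff (d * N) = aeval (fun i => (p i).coeff N) f := by
  rw [aeval_def, aeval_def, eval₂_eq', eval₂_eq', Polynomial.finsetSum_coeff]
  refine Finset.sum_congr rfl fun t ht => ?_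
  have hd : ∑ i, t i = d := by
    have h := hf (mem_support_iff.1 ht)
    rw [← h, Finsupp.weight_apply, Finsupp.sum_fintype _ _ (fun i => by simp)]
    simp
  rw [Polynomial.algebraMap_apply, Polynomial.coeff_C_mul, ← hd, Finset.sum_mul]
  congr 1
  have h1 : ∀ s : Finset (Fin m), (∏ i ∈ s, p i ^ t i).coeff (∑ i ∈ s, t i * N) =
      ∏ i ∈ s, (p i).coeff N ^ t i := by
    classical
    intro s
    induction s using Finset.induction_on with
    | empty => simp
    | insert a s ha ih =>
      rw [Finset.prod_insert ha, Finset.prod_insert ha, Finset.sum_insert ha, ← ih,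
        ← Polynomial.coeff_pow_of_natDegree_le (hp a), mul_comm (t a) N, mul_comm N (t a)]
      refine Polynomial.coeff_mul_add_eq_of_natDegree_le ?_ ?_
      · exact (Polynomial.natDegree_pow_le).trans (Nat.mul_le_mul_left _ (hp a))
      · refine (Polynomial.natDegree_prod_le _ _).trans (Finset.sum_le_sum fun i _ => ?_)
        exact (Polynomial.natDegree_pow_le).trans (Nat.mul_le_mul_left _ (hp i))
  exact h1 Finset.univ

end form

section segments

variable {L : Type u} [Field L] {m : ℕ}

/-- The segment of the chain between the vertices `a` and `b`. -/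
noncomputable def seg (τ : ℕ → L) (z : ℕ → Fin m → L) (a b : ℕ) (k : Fin m) : Polynomial L :=
  ∑ i ∈ Finset.range (b - a + 1), Polynomial.C (mu τ a (a + i) * z (a + i) k) * Polynomial.X ^ i

theorem coeff_seg (τ : ℕ → L) (z : ℕ → Fin m → L) (a b : ℕ) (k : Fin m) (i : ℕ) :
    (seg τ z a b k).coeff i = if i ≤ b - a then mu τ a (a + i) * z (a + i) k else 0 := by
  rw [seg, Polynomial.finsetSum_coeff]
  simp only [Polynomial.coeff_C_mul_X_pow]
  rw [Finset.sum_ite_eq (Finset.range (b - a + 1)) i]
  simp only [Finset.mem_range, Nat.lt_succ_iff]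

theorem natDegree_seg (τ : ℕ → L) (z : ℕ → Fin m → L) (a b : ℕ) (k : Fin m) :
    (seg τ z a b k).natDegree ≤ b - a := by
  refine Polynomial.natDegree_le_iff_coeff_eq_zero.2 fun i hi => ?_
  rw [coeff_seg, if_neg (by omega)]

/-- Between two consecutive vertices the curve `phi a` is a multiple of the segment. -/
theorem phi_eq_seg {τ : ℕ → L} {z : ℕ → Fin m → L} {e a b : ℕ} (hab : a < b) (hbe : b ≤ e)
    (ha : a = 0 ∨ τ a = 0) (hb : b = e ∨ τ b = 0) (k : Fin m) :
    phi τ z e a k = Polynomial.X ^ a * seg τ z a b k := by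
  ext i
  rw [coeff_phi, Polynomial.coeff_X_pow_mul', coeff_seg]
  by_cases h1 : i < a
  · rw [if_neg (not_le.2 h1), if_pos (by omega)]
    rcases ha with rfl | ha
    · omega
    · rw [mu_eq_zero_lt h1 le_rfl ha, zero_mul]
  · rw [not_lt] at h1
    rw [if_pos h1]
    by_cases h2 : i ≤ b
    · rw [if_pos (by omega), if_pos (by omega), Nat.add_sub_cancel' h1]
    · rw [if_neg (by omega : ¬ (i - a ≤ b - a))]
      rcases hb with rfl | hb
      · rw [if_neg h2]
      · rw [mu_eq_zero_gt hab (by omega) hb, zero_mul, ite_self]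

/-- **The segment lies on the variety.** -/
theorem aeval_seg {K : Type u} [CommRing K] [Algebra K L] {d : ℕ} {f : MvPolynomial (Fin m) K}
    (hf : f.IsHomogeneous d)
    (hd : 0 < d) {τ : ℕ → L} {z : ℕ → Fin m → L} {e a b : ℕ} (hab : a < b) (hbe : b ≤ e)
    (ha : a = 0 ∨ τ a = 0) (hb : b = e ∨ τ b = 0) (hk : ∀ k, a < k → k < b → τ k ≠ 0)
    (hx : aeval (z 0) f = 0) (hy : aeval (z e) f = 0)
    (h : ∀ j, 0 < j → j < d * e → (aeval (phi τ z e (j / d)) f).coeff j = 0) :
    aeval (seg τ z a b) f = 0 := by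
  -- the vanishing for the end `b`
  have hzb : aeval (z b) f = 0 := by
    rcases hb with rfl | hb
    · exact hy
    · rcases hbe.eq_or_lt with rfl | hlt
      · exact hy
      · have h1 := h (d * b) (Nat.mul_pos hd (by omega)) (Nat.mul_lt_mul_of_pos_left hlt hd)
        rw [Nat.mul_div_cancel_left _ hd] at h1
        have h2 : phi τ z e b = fun k => Polynomial.X ^ b * seg τ z b e k := by
          funext k
          exact phi_eq_seg hlt le_rfl (Or.inr hb) (Or.inl rfl) k
        rw [h2, aeval_smul_form hf, ← pow_mul, mul_comm b d, Polynomial.coeff_X_pow_mul',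
          if_pos le_rfl, Nat.sub_self, coeff_zero_form] at h1
        have h3 : (fun i => (seg τ z b e i).coeff 0) = z b := by
          funext i
          rw [coeff_seg, if_pos (Nat.zero_le _), add_zero, mu_self, one_mul]
        rwa [h3] at h1
  -- all the coefficients of `f (phi a)` vanish
  have hphi : phi τ z e a = fun k => Polynomial.X ^ a * seg τ z a b k := by
    funext k
    exact phi_eq_seg hab hbe ha hb k
  have key : aeval (phi τ z e a) f = Polynomial.X ^ (a * d) * aeval (seg τ z a b) f := by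
    rw [hphi, aeval_smul_form hf, pow_mul]
  have hstep : ∀ c, a ≤ c → c < b → ∀ j, (aeval (phi τ z e c) f).coeff j = 0 →
      (aeval (phi τ z e a) f).coeff j = 0 := by
    intro c hac
    induction c, hac using Nat.le_induction with
    | base => exact fun _ j hj => hj
    | succ c hac ih =>
      intro hc j hj
      refine ih (by omega) j ?_
      have h1 := coeff_step hf τ z e c j
      rw [hj, zero_mul] at h1
      exact (mul_eq_zero.1 h1.symm).resolve_left (pow_ne_zero _ (hk _ (by omega) hc))
  ext i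
  rw [Polynomial.coeff_zero]
  have h0 : (aeval (seg τ z a b) f).coeff i = (aeval (phi τ z e a) f).coeff (a * d + i) := by
    rw [key, Polynomial.coeff_X_pow_mul', if_pos (by omega), Nat.add_sub_cancel_left]
  by_cases hi0 : i = 0 ∧ a = 0
  · obtain ⟨rfl, rfl⟩ := hi0
    rw [coeff_zero_form]
    have h3 : (fun i => (seg τ z 0 b i).coeff 0) = z 0 := by
      funext i
      rw [coeff_seg, if_pos (Nat.zero_le _), add_zero, mu_self, one_mul]
    rw [h3, hx]
  · rcases Nat.lt_trichotomy i (d * (b - a)) with hi | hi | hi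
    · rw [h0]
      have h4 : a * d + i < d * b := by
        have h5 : d * b = a * d + d * (b - a) := by
          rw [mul_comm a d, ← mul_add, Nat.add_sub_cancel' hab.le]
        omega
      have h6 : (a * d + i) / d < b := Nat.div_lt_of_lt_mul h4
      have h7 : a ≤ (a * d + i) / d := by
        rw [Nat.le_div_iff_mul_le hd]
        omega
      refine hstep _ h7 h6 _ (h _ ?_ (lt_of_lt_of_le h4 (Nat.mul_le_mul_left _ hbe)))
      by_contra hcon
      have h8 : a * d = 0 := by omega
      rcases Nat.mul_eq_zero.1 h8 with h9 | h9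
      · exact hi0 ⟨by omega, h9⟩
      · omega
    · subst hi
      rw [coeff_top_form hf _ (natDegree_seg τ z a b)]
      have h3 : (fun i => (seg τ z a b i).coeff (b - a)) = fun i => mu τ a b * z b i := by
        funext i
        rw [coeff_seg, if_pos le_rfl, Nat.add_sub_cancel' hab.le]
      rw [h3, aeval_smul_form hf, hzb, mul_zero]
    · exact Polynomial.coeff_eq_zero_of_natDegree_lt
        (lt_of_le_of_lt (natDegree_form hf _ (natDegree_seg τ z a b)) hi)

/-- Two points are linked: they are (up to a factor) the first and the last coefficient of a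
rational curve on the variety. -/
def Link {K : Type u} [CommRing K] [Algebra K L] {r : ℕ} (f : Fin r → MvPolynomial (Fin m) K)
    (u v : Fin m → L) : Prop :=
  u ≠ 0 ∧ v ≠ 0 ∧ (∀ a, aeval u (f a) = 0) ∧ (∀ a, aeval v (f a) = 0) ∧
    ∃ (N : ℕ) (p : Fin m → Polynomial L), (∀ i, (p i).natDegree ≤ N) ∧
      (∀ i, (p i).coeff 0 = u i) ∧ (∃ c : L, c ≠ 0 ∧ ∀ i, (p i).coeff N = c * v i) ∧
      ∀ a, aeval p (f a) = 0

/-- **A stable zero of the chain equations gives a chain of linked points.** -/
theorem chain_link {K : Type u} [CommRing K] [Algebra K L] {r : ℕ}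
    {f : Fin r → MvPolynomial (Fin m) K} {d : Fin r → ℕ} (hf : ∀ a, (f a).IsHomogeneous (d a))
    (hd : ∀ a, 0 < d a) {τ : ℕ → L} {z : ℕ → Fin m → L} {e : ℕ} (he : 0 < e)
    (hz0 : z 0 ≠ 0) (hze : z e ≠ 0)
    (hx : ∀ a, aeval (z 0) (f a) = 0) (hy : ∀ a, aeval (z e) (f a) = 0)
    (hst : ∀ k, 0 < k → k < e → z k ≠ 0 ∨ τ k ≠ 0)
    (h : ∀ a j, 0 < j → j < d a * e → (aeval (phi τ z e (j / d a)) (f a)).coeff j = 0) :
    Relation.TransGen (Link f) (z 0) (z e) := by
  -- the vertices
  have hzv : ∀ b, b = 0 ∨ τ b = 0 ∨ b = e → b ≤ e → z b ≠ 0 := by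
    intro b hb hbe
    rcases hb with rfl | hb | rfl
    · exact hz0
    · rcases Nat.eq_zero_or_pos b with rfl | h0
      · exact hz0
      · rcases hbe.eq_or_lt with rfl | hlt
        · exact hze
        · exact (hst b h0 hlt).resolve_right fun h1 => h1 hb
    · exact hze
  have hfv : ∀ b, b = 0 ∨ τ b = 0 ∨ b = e → b ≤ e → ∀ a, aeval (z b) (f a) = 0 := by
    intro b hb hbe a
    rcases Nat.eq_zero_or_pos b with rfl | h0
    · exact hx a
    rcases hbe.eq_or_lt with rfl | hlt
    · exact hy a
    have hb' : τ b = 0 := by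
      rcases hb with rfl | hb | rfl
      · omega
      · exact hb
      · omega
    have h1 := h a (d a * b) (Nat.mul_pos (hd a) h0) (Nat.mul_lt_mul_of_pos_left hlt (hd a))
    rw [Nat.mul_div_cancel_left _ (hd a)] at h1
    have h2 : phi τ z e b = fun k => Polynomial.X ^ b * seg τ z b e k := by
      funext k
      exact phi_eq_seg hlt le_rfl (Or.inr hb') (Or.inl rfl) k
    rw [h2, aeval_smul_form (hf a), ← pow_mul, mul_comm b (d a), Polynomial.coeff_X_pow_mul',
      if_pos le_rfl, Nat.sub_self, coeff_zero_form] at h1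
    have h3 : (fun i => (seg τ z b e i).coeff 0) = z b := by
      funext i
      rw [coeff_seg, if_pos (Nat.zero_le _), add_zero, mu_self, one_mul]
    rwa [h3] at h1
  have main : ∀ b, 0 < b → b ≤ e → (τ b = 0 ∨ b = e) → Relation.TransGen (Link f) (z 0) (z b) := by
    intro b
    induction b using Nat.strong_induction_on with
    | _ b ih =>
      intro hb0 hbe hb
      classical
      -- the last vertex before `b`
      obtain ⟨a, hab, ha, hk⟩ : ∃ a, a < b ∧ (a = 0 ∨ τ a = 0) ∧
          ∀ k, a < k → k < b → τ k ≠ 0 := by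
        have hne : ((Finset.range b).filter fun a => a = 0 ∨ τ a = 0).Nonempty :=
          ⟨0, Finset.mem_filter.2 ⟨Finset.mem_range.2 hb0, Or.inl rfl⟩⟩
        have hmem := Finset.max'_mem _ hne
        rw [Finset.mem_filter, Finset.mem_range] at hmem
        refine ⟨_, hmem.1, hmem.2, fun k hk hkb hk0 => ?_⟩
        have hk1 : k ∈ (Finset.range b).filter fun a => a = 0 ∨ τ a = 0 :=
          Finset.mem_filter.2 ⟨Finset.mem_range.2 hkb, Or.inr hk0⟩
        exact absurd (Finset.le_max' _ k hk1) (not_le.2 hk)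
      have hlink : Link f (z a) (z b) := by
        refine ⟨hzv a (by tauto) (by omega), hzv b (by tauto) hbe, hfv a (by tauto) (by omega),
          hfv b (by tauto) hbe, b - a, seg τ z a b, natDegree_seg τ z a b, fun i => ?_,
          ⟨mu τ a b, mu_ne_zero hab.le hk, fun i => ?_⟩, fun t => ?_⟩
        · rw [coeff_seg, if_pos (Nat.zero_le _), add_zero, mu_self, one_mul]
        · rw [coeff_seg, if_pos le_rfl, Nat.add_sub_cancel' hab.le]
        · exact aeval_seg (hf t) (hd t) hab hbe ha (by tauto) hk (hx t) (hy t) (h t)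
      rcases Nat.eq_zero_or_pos a with rfl | ha0
      · exact Relation.TransGen.single hlink
      · refine Relation.TransGen.tail (ih a hab ha0 (by omega) (Or.inl ?_)) hlink
        rcases ha with ha | ha
        · omega
        · exact ha
  exact main e he le_rfl (Or.inr rfl)

end segments

end ZC
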