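import Pool.Agent.Helper25.BD.ChainDefs
import Pool.Agent.Helper91.BD.ChainGen

/-!
# The chain equations (Helper91, rows G7a and G7b of PROJECT BD)

`ZC.chainP x y f d D j` : the `j`-th chain equation of the form `f` of degree `d`, in the unknowns
`z_k`, `τ_k` (`1 ≤ k ≤ D`), for chains of curves from `x` to `y`.

* `ZC.chainP_hom` : it is homogeneous of degree `dg D d j`;
* `ZC.map_chainP`, `ZC.eval_chainP` : base change and values;
* `ZC.chain_of_stable` : a stable zero of all chain equations gives a chain of rational curves.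
-/

set_option autoImplicit false

open MvPolynomial

namespace ZC

universe u v w'

section weight

variable {G : Type v} [AddCommGroup G] (g : ℕ → G)

theorem sum_al_le {i c : ℕ} (h : i ≤ c) :
    g i + ∑ k ∈ Finset.Ioc i c, (k - i) • (2 • g k - g (k - 1) - g (k + 1)) =
      g c - ((c : ℤ) - i) • (g (c + 1) - g c) := by
  induction c, h using Nat.le_induction with
  | base => simp
  | succ c hic ih =>
    have h1 : Finset.Ioc i (c + 1) = insert (c + 1) (Finset.Ioc i c) := by
      ext k
      simp only [Finset.mem_Ioc, Finset.mem_insert]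
      omega
    have h2 : c + 1 ∉ Finset.Ioc i c := by
      rw [Finset.mem_Ioc]
      omega
    rw [h1, Finset.sum_insert h2, add_left_comm, ih, Nat.add_sub_cancel,
      ← natCast_zsmul, Nat.cast_sub (by omega)]
    push_cast
    module

theorem sum_al_gt (t : ℕ) : ∀ c : ℕ,
    g (c + 1 + t) + ∑ k ∈ Finset.Ioo c (c + 1 + t), (c + 1 + t - k) •
      (2 • g k - g (k - 1) - g (k + 1)) = g c + ((t : ℤ) + 1) • (g (c + 1) - g c) := by
  induction t with
  | zero =>
    intro c
    have h1 : Finset.Ioo c (c + 1 + 0) = ∅ := by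
      ext k
      simp only [Finset.mem_Ioo, Finset.notMem_empty, iff_false]
      omega
    rw [h1, Finset.sum_empty]
    simp
  | succ t ih =>
    intro c
    have h1 : Finset.Ioo c (c + 1 + (t + 1)) = insert (c + 1) (Finset.Ioo (c + 1) (c + 1 + 1 + t)) := by
      ext k
      simp only [Finset.mem_Ioo, Finset.mem_insert]
      omega
    have h2 : c + 1 ∉ Finset.Ioo (c + 1) (c + 1 + 1 + t) := by
      rw [Finset.mem_Ioo]
      omega
    have h3 : c + 1 + (t + 1) = c + 1 + 1 + t := by omega
    rw [h1, Finset.sum_insert h2, add_left_comm, h3, ih (c + 1), Nat.add_sub_cancel]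
    have h4 : c + 1 + 1 + t - (c + 1) = t + 1 := by omega
    rw [h4, ← natCast_zsmul]
    push_cast
    module

end weight

section hom

variable {G : Type v} [AddCommGroup G] {σ : Type w'} {L : Type u} [CommRing L] (w : σ → G)

/-- The coefficients are homogeneous of the degrees of an arithmetic progression. -/
def Arith (u v : G) (k : ℕ) (q : Polynomial (MvPolynomial σ L)) : Prop :=
  ∀ j : ℕ, IsWeightedHomogeneous w (q.coeff j) (k • u + j • v)

variable {w}

theorem Arith.mul {u v : G} {k k' : ℕ} {q q' : Polynomial (MvPolynomial σ L)}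
    (h : Arith w u v k q) (h' : Arith w u v k' q') : Arith w u v (k + k') (q * q') := by
  intro j
  rw [Polynomial.coeff_mul]
  refine IsWeightedHomogeneous.sum _ _ _ fun p hp => ?_
  have h1 := (h p.1).mul (h' p.2)
  rw [Finset.HasAntidiagonal.mem_antidiagonal] at hp
  have h2 : k • u + p.1 • v + (k' • u + p.2 • v) = (k + k') • u + j • v := by
    rw [← hp]
    module
  rwa [h2] at h1

theorem Arith.one (u v : G) : Arith w u v 0 (1 : Polynomial (MvPolynomial σ L)) := by
  intro j
  rw [Polynomial.coeff_one]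
  split_ifs with h
  · subst h
    simpa using isWeightedHomogeneous_one (R := L) w
  · exact isWeightedHomogeneous_zero _ _ _

theorem Arith.pow {u v : G} {q : Polynomial (MvPolynomial σ L)} (h : Arith w u v 1 q) (t : ℕ) :
    Arith w u v t (q ^ t) := by
  induction t with
  | zero => simpa using Arith.one u v
  | succ t ih =>
    rw [pow_succ]
    exact ih.mul h

theorem Arith.prod {u v : G} {m : ℕ} (s : Finset (Fin m)) (q : Fin m → Polynomial (MvPolynomial σ L))
    (h : ∀ b, Arith w u v 1 (q b)) (t : Fin m → ℕ) :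
    Arith w u v (∑ b ∈ s, t b) (∏ b ∈ s, q b ^ t b) := by
  classical
  induction s using Finset.induction_on with
  | empty => simpa using Arith.one u v
  | insert a s ha ih =>
    rw [Finset.sum_insert ha, Finset.prod_insert ha]
    exact ((h a).pow (t a)).mul ih

theorem Arith.form {u v : G} {m d : ℕ} {f : MvPolynomial (Fin m) L} (hf : f.IsHomogeneous d)
    (q : Fin m → Polynomial (MvPolynomial σ L)) (h : ∀ b, Arith w u v 1 (q b)) :
    Arith w u v d (aeval q f) := by
  intro j
  rw [aeval_def, eval₂_eq', Polynomial.finsetSum_coeff]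
  refine IsWeightedHomogeneous.sum _ _ _ fun t ht => ?_
  have hd : ∑ i, t i = d := by
    have h := hf (mem_support_iff.1 ht)
    rw [← h, Finsupp.weight_apply, Finsupp.sum_fintype _ _ (fun i => by simp)]
    simp
  rw [Polynomial.algebraMap_apply, Polynomial.coeff_C_mul, MvPolynomial.algebraMap_eq]
  refine IsWeightedHomogeneous.C_mul ?_ _
  rw [← hd]
  exact Arith.prod Finset.univ q h t j

end hom

section chainP

variable {D n : ℕ} {L : Type u} [CommRing L]

/-- The unknown vertices. -/
noncomputable def cz (D : ℕ) (x y : Fin (n + 1) → L) (k : ℕ) (b : Fin (n + 1)) :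
    MvPolynomial (CVar D (n + 1) 1) L :=
  if h : 1 ≤ k ∧ k ≤ D then X (Sum.inl (⟨k - 1, by omega⟩, b)) else
    if k = 0 then C (x b) else C (y b)

/-- The unknown parameters. -/
noncomputable def ct (D n : ℕ) (L : Type u) [CommRing L] (k : ℕ) :
    MvPolynomial (CVar D (n + 1) 1) L :=
  if h : 1 ≤ k ∧ k < D then X (Sum.inr (Sum.inl ⟨k - 1, by omega⟩)) else X (Sum.inr (Sum.inr 0))

/-- The values of the vertices. -/
def czv (x y : Fin (n + 1) → L) (s : CVar D (n + 1) 1 → L) (k : ℕ) (b : Fin (n + 1)) : L :=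
  if h : 1 ≤ k ∧ k ≤ D then s (Sum.inl (⟨k - 1, by omega⟩, b)) else
    if k = 0 then x b else y b

/-- The values of the parameters. -/
def ctv (s : CVar D (n + 1) 1 → L) (k : ℕ) : L :=
  if h : 1 ≤ k ∧ k < D then s (Sum.inr (Sum.inl ⟨k - 1, by omega⟩)) else s (Sum.inr (Sum.inr 0))

/-- **The chain equations.** -/
noncomputable def chainP (x y : Fin (n + 1) → L) (f : MvPolynomial (Fin (n + 1)) L) (d D j : ℕ) :
    MvPolynomial (CVar D (n + 1) 1) L :=
  (aeval (phi (ct D n L) (cz D x y) (D + 1) (j / d)) f).coeff j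

theorem cz_hom (x y : Fin (n + 1) → L) {k : ℕ} (hk : k ≤ D + 1) (b : Fin (n + 1)) :
    IsWeightedHomogeneous wt (cz D x y k b) (ep D k) := by
  rw [cz]
  split_ifs with h1 h2
  · have h3 := isWeightedHomogeneous_X L (wt : CVar D (n + 1) 1 → Fin D → ℤ)
      (Sum.inl (⟨k - 1, by omega⟩, b))
    have h4 : (wt (Sum.inl (⟨k - 1, by omega⟩, b) : CVar D (n + 1) 1) : Fin D → ℤ) = ep D k := by
      change ep D (k - 1 + 1) = ep D k
      rw [Nat.sub_add_cancel h1.1]
    rwa [h4] at h3
  · subst h2
    have h3 : ep D 0 = 0 := by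
      funext i
      rw [ep, if_neg (by omega)]
      rfl
    rw [h3]
    exact isWeightedHomogeneous_C _ _
  · have h3 : ep D k = 0 := by
      funext i
      rw [ep, if_neg (by omega)]
      rfl
    rw [h3]
    exact isWeightedHomogeneous_C _ _

theorem ct_hom {k : ℕ} (hk : 1 ≤ k) (hkD : k ≤ D) :
    IsWeightedHomogeneous wt (ct D n L k) (al D k) := by
  rw [ct]
  split_ifs with h1
  · have h3 := isWeightedHomogeneous_X L (wt : CVar D (n + 1) 1 → Fin D → ℤ)
      (Sum.inr (Sum.inl ⟨k - 1, by omega⟩))
    have h4 : (wt (Sum.inr (Sum.inl ⟨k - 1, by omega⟩) : CVar D (n + 1) 1) : Fin D → ℤ) =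
        al D k := by
      change al D (k - 1 + 1) = al D k
      rw [Nat.sub_add_cancel h1.1]
    rwa [h4] at h3
  · have h2 : k = D := by omega
    have h3 := isWeightedHomogeneous_X L (wt : CVar D (n + 1) 1 → Fin D → ℤ)
      (Sum.inr (Sum.inr 0))
    have h4 : (wt (Sum.inr (Sum.inr 0) : CVar D (n + 1) 1) : Fin D → ℤ) = al D k := by
      rw [h2]
      rfl
    rwa [h4] at h3

theorem muz_hom (x y : Fin (n + 1) → L) {c i : ℕ} (hc : c ≤ D) (hi : i ≤ D + 1)
    (b : Fin (n + 1)) :
    IsWeightedHomogeneous wt (mu (ct D n L) c i * cz D x y i b)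
      (ep D c + ((i : ℤ) - c) • (ep D (c + 1) - ep D c)) := by
  rw [mu]
  split_ifs with h
  · have h1 : IsWeightedHomogeneous wt (∏ k ∈ Finset.Ioc i c, ct D n L k ^ (k - i))
        (∑ k ∈ Finset.Ioc i c, (k - i) • al D k) := by
      refine IsWeightedHomogeneous.prod _ _ _ fun k hk => ?_
      rw [Finset.mem_Ioc] at hk
      exact (ct_hom (by omega) (by omega)).pow _
    have h2 := h1.mul (cz_hom x y hi b)
    have h3 := sum_al_le (ep D) h
    have h4 : ∑ k ∈ Finset.Ioc i c, (k - i) • al D k + ep D i =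
        ep D c + ((i : ℤ) - c) • (ep D (c + 1) - ep D c) := by
      rw [add_comm]
      refine h3.trans ?_
      module
    rwa [h4] at h2
  · have h1 : IsWeightedHomogeneous wt (∏ k ∈ Finset.Ioo c i, ct D n L k ^ (i - k))
        (∑ k ∈ Finset.Ioo c i, (i - k) • al D k) := by
      refine IsWeightedHomogeneous.prod _ _ _ fun k hk => ?_
      rw [Finset.mem_Ioo] at hk
      exact (ct_hom (by omega) (by omega)).pow _
    have h2 := h1.mul (cz_hom x y hi b)
    obtain ⟨t, rfl⟩ : ∃ t, i = c + 1 + t := ⟨i - (c + 1), by omega⟩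
    have h3 := sum_al_gt (ep D) t c
    have h4 : ∑ k ∈ Finset.Ioo c (c + 1 + t), (c + 1 + t - k) • al D k + ep D (c + 1 + t) =
        ep D c + (((c + 1 + t : ℕ) : ℤ) - c) • (ep D (c + 1) - ep D c) := by
      rw [add_comm]
      refine h3.trans ?_
      push_cast
      module
    rwa [h4] at h2

/-- **Homogeneity of the chain equations.** -/
theorem chainP_hom (x y : Fin (n + 1) → L) {f : MvPolynomial (Fin (n + 1)) L} {d : ℕ}
    (hf : f.IsHomogeneous d) {j : ℕ} (hj : j < d * (D + 1)) :
    IsWeightedHomogeneous wt (chainP x y f d D j) (dg D d j) := by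
  have hc : j / d ≤ D := by
    have := Nat.div_lt_of_lt_mul hj
    omega
  set c := j / d with hcdef
  have h1 : ∀ b : Fin (n + 1), Arith (wt : CVar D (n + 1) 1 → Fin D → ℤ)
      (ep D c - (c : ℤ) • (ep D (c + 1) - ep D c)) (ep D (c + 1) - ep D c) 1
      (phi (ct D n L) (cz D x y) (D + 1) c b) := by
    intro b i
    rw [coeff_phi]
    split_ifs with hi
    · have h2 := muz_hom x y hc hi b
      have h3 : ep D c + ((i : ℤ) - c) • (ep D (c + 1) - ep D c) =
          1 • (ep D c - (c : ℤ) • (ep D (c + 1) - ep D c)) + i • (ep D (c + 1) - ep D c) := by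
        rw [one_smul, ← natCast_zsmul _ i]
        module
      rwa [h3] at h2
    · exact isWeightedHomogeneous_zero _ _ _
  have h2 := Arith.form hf _ h1 j
  have h3 : d • (ep D c - (c : ℤ) • (ep D (c + 1) - ep D c)) + j • (ep D (c + 1) - ep D c) =
      dg D d j := by
    rw [dg, ← hcdef, ← natCast_zsmul _ d, ← natCast_zsmul _ j]
    module
  rwa [h3] at h2

theorem coeff_aeval_map {L' : Type u} [CommRing L'] {A A' : Type u} [CommRing A] [CommRing A']
    [Algebra L A] [Algebra L' A'] (h : L →+* L') (g : A →+* A')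
    (hg : ∀ r, g (algebraMap L A r) = algebraMap L' A' (h r)) {m : ℕ} (p : Fin m → Polynomial A)
    (f : MvPolynomial (Fin m) L) (j : ℕ) :
    g ((aeval p f).coeff j) = (aeval (fun i => (p i).map g) (MvPolynomial.map h f)).coeff j := by
  rw [← Polynomial.coeff_map]
  congr 1
  rw [aeval_def, aeval_def, eval₂_map]
  have h1 := MvPolynomial.hom_eval₂ f (algebraMap L (Polynomial A)) (Polynomial.mapRingHom g) p
  rw [Polynomial.coe_mapRingHom] at h1
  rw [h1]
  congr 1
  ext r
  rw [RingHom.comp_apply, RingHom.comp_apply, Polynomial.coe_mapRingHom,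
    Polynomial.algebraMap_apply, Polynomial.algebraMap_apply, Polynomial.map_C, hg]

/-- Base change of the chain equations. -/
theorem map_chainP {L' : Type u} [CommRing L'] (h : L →+* L') (x y : Fin (n + 1) → L)
    (f : MvPolynomial (Fin (n + 1)) L) (d D j : ℕ) :
    MvPolynomial.map h (chainP x y f d D j) =
      chainP (fun i => h (x i)) (fun i => h (y i)) (MvPolynomial.map h f) d D j := by
  have e1 : (fun k : ℕ => MvPolynomial.map h (ct D n L k)) = ct D n L' := by
    funext k
    rw [ct, ct]
    split_ifs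
    · rw [map_X]
    · rw [map_X]
  have e2 : (fun (k : ℕ) (b : Fin (n + 1)) => MvPolynomial.map h (cz D x y k b)) =
      cz D (fun i => h (x i)) (fun i => h (y i)) := by
    funext k b
    rw [cz, cz]
    split_ifs
    · rw [map_X]
    · rw [map_C]
    · rw [map_C]
  have e3 : (fun b => (phi (ct D n L) (cz D x y) (D + 1) (j / d) b).map (MvPolynomial.map h)) =
      phi (ct D n L') (cz D (fun i => h (x i)) (fun i => h (y i))) (D + 1) (j / d) := by
    funext b
    rw [map_phi, e1, e2]
  have e4 := coeff_aeval_map h (MvPolynomial.map h : MvPolynomial (CVar D (n + 1) 1) L →+*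
      MvPolynomial (CVar D (n + 1) 1) L')
    (fun r => by rw [MvPolynomial.algebraMap_eq, MvPolynomial.map_C, MvPolynomial.algebraMap_eq])
    (phi (ct D n L) (cz D x y) (D + 1) (j / d)) f j
  rw [e3] at e4
  exact e4

/-- The values of the chain equations. -/
theorem eval_chainP (x y : Fin (n + 1) → L) (f : MvPolynomial (Fin (n + 1)) L) (d j : ℕ)
    (s : CVar D (n + 1) 1 → L) :
    eval s (chainP x y f d D j) = (aeval (phi (ctv s) (czv x y s) (D + 1) (j / d)) f).coeff j := by
  have e1 : (fun k : ℕ => eval s (ct D n L k)) = ctv s := by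
    funext k
    rw [ct, ctv]
    split_ifs
    · rw [eval_X]
    · rw [eval_X]
  have e2 : (fun (k : ℕ) (b : Fin (n + 1)) => eval s (cz D x y k b)) = czv x y s := by
    funext k b
    rw [cz, czv]
    split_ifs
    · rw [eval_X]
    · rw [eval_C]
    · rw [eval_C]
  have e3 : (fun b => (phi (ct D n L) (cz D x y) (D + 1) (j / d) b).map (eval s)) =
      phi (ctv s) (czv x y s) (D + 1) (j / d) := by
    funext b
    rw [map_phi, e1, e2]
  have e4 := coeff_aeval_map (RingHom.id L) (eval s : MvPolynomial (CVar D (n + 1) 1) L →+* L)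
    (fun r => by rw [MvPolynomial.algebraMap_eq, eval_C]; rfl)
    (phi (ct D n L) (cz D x y) (D + 1) (j / d)) f j
  rw [e3, MvPolynomial.map_id] at e4
  exact e4

end chainP

section stable

variable {D n r : ℕ} {L : Type u} [Field L]

/-- **A stable zero of the chain equations gives a chain of rational curves.** -/
theorem chain_of_stable (f : Fin r → MvPolynomial (Fin (n + 1)) L) (d : Fin r → ℕ)
    (hf : ∀ a, (f a).IsHomogeneous (d a)) (hd : ∀ a, 0 < d a) (x y : Fin (n + 1) → L)
    (hx0 : x ≠ 0) (hy0 : y ≠ 0) (hx : ∀ a, eval x (f a) = 0) (hy : ∀ a, eval y (f a) = 0)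
    (s : CVar D (n + 1) 1 → L) (hs : Stable s)
    (h : ∀ a j, 0 < j → j < d a * (D + 1) → eval s (chainP x y (f a) (d a) D j) = 0) :
    Relation.TransGen (Link f) x y := by
  have h0 : czv x y s 0 = x := by
    funext b
    rw [czv, dif_neg (by omega), if_pos rfl]
  have he : czv x y s (D + 1) = y := by
    funext b
    rw [czv, dif_neg (by omega), if_neg (by omega)]
  have key := chain_link (L := L) (K := L) (f := f) (d := d) hf hd (τ := ctv s) (z := czv x y s)
    (e := D + 1) (Nat.succ_pos D) (by rw [h0]; exact hx0) (by rw [he]; exact hy0)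
    (fun a => by rw [h0, aeval_eq_eval]; exact hx a) (fun a => by rw [he, aeval_eq_eval]; exact hy a)
    (fun k hk hkD => ?_) (fun a j hj hj' => ?_)
  · rwa [h0, he] at key
  · obtain ⟨t, ht, ht0⟩ := hs k hk (by omega)
    rcases t with ⟨k', b⟩ | k' | i
    · refine Or.inl fun hz => ht0 ?_
      have h1 := congrFun hz b
      have h2 : (k' : ℕ) + 1 = k := ht
      rw [czv, dif_pos ⟨hk, by omega⟩] at h1
      have h3 : (⟨k - 1, by omega⟩ : Fin D) = k' := Fin.ext (by simp; omega)
      rw [h3] at h1
      exact h1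
    · refine Or.inr fun hz => ht0 ?_
      have h2 : (k' : ℕ) + 1 = k := ht
      rw [ctv, dif_pos ⟨hk, by omega⟩] at hz
      have h3 : (⟨k - 1, by omega⟩ : Fin (D - 1)) = k' := Fin.ext (by simp; omega)
      rw [h3] at hz
      exact hz
    · refine Or.inr fun hz => ht0 ?_
      have h2 : D = k := ht
      rw [ctv, dif_neg (by omega)] at hz
      rw [Subsingleton.elim i 0]
      exact hz
  · rw [← eval_chainP]
    exact h a j hj hj'

end stable

end ZC
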