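import Pool.Agent.Helper15.BDX.Seg
import Pool.Agent.Helper91.BD.ChainPoly

/-!
# Stable zeros of the chain equations and chains of rational curves (Helper91, row G7b)
-/

set_option autoImplicit false

open MvPolynomial

namespace ZC

universe u

/-- **A stable zero of the chain equations of `X` for the points `x` and `y` joins them by a chain
of rational curves on `X`.** -/
theorem chained_of_stable {K M : Type u} [Field K] [Field M] [Algebra K M] {n r D : ℕ}
    (X : ProjVar K n r) (hd : ∀ a, 0 < X.d a) {x y : Fin (n + 1) → M} (hx : X.IsPt x)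
    (hy : X.IsPt y) (s : CVar D (n + 1) 1 → M) (hs : Stable s)
    (h : ∀ a j, 0 < j → j < X.d a * (D + 1) →
      eval s (chainP x y (MvPolynomial.map (algebraMap K M) (X.form a)) (X.d a) D j) = 0) :
    Chained X x y := by
  have key := chain_of_stable (fun a => MvPolynomial.map (algebraMap K M) (X.form a)) X.d
    (fun a => (X.hom a).map _) hd x y hx.1 hy.1
    (fun a => by rw [eval_map, ← aeval_def]; exact hx.2 a)
    (fun a => by rw [eval_map, ← aeval_def]; exact hy.2 a) s hs h
  refine Relation.ReflTransGen.mono ?_ _ _ key.to_reflTransGen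
  rintro u v ⟨hu, hv, -, -, N, p, hN, h0, ⟨c, hc, hcN⟩, hp⟩
  refine ⟨hu, hv, N, p, c, hc, hN, h0, hcN, fun a => ?_⟩
  have h1 := hp a
  rwa [aeval_map_algebraMap] at h1

end ZC
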