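import Pool.Agent.Helper99.BD.ChainLink
import Pool.Agent.Helper91.BD.ChainSeg

/-!
# The systems of the chain equations (Helper91, row G7 of PROJECT BD)
-/

set_option autoImplicit false

open MvPolynomial

namespace ZC

universe u

/-- The chain equations have the required degrees, and their stable zeros give chains. -/
theorem chainSystems {L : Type u} [Field L] {n r : ℕ} {d : Fin r → ℕ} (hd : ∀ a, 0 < d a)
    (D : ℕ) : ChainSystems L n d D := by
  rintro X rfl x y hx hy
  refine ⟨fun a j => chainP x y (X.form a) (X.d a) D j, fun a j _ hj => chainP_hom x y (X.hom a) hj,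
    fun M _ _ ξ hξ h => ?_⟩
  have hx' : X.IsPt fun i => algebraMap L M (x i) := isPt_emb X (Algebra.ofId L M) hx
  have hy' : X.IsPt fun i => algebraMap L M (y i) := isPt_emb X (Algebra.ofId L M) hy
  refine chained_of_stable X hd hx' hy' ξ hξ fun a j hj hj' => ?_
  have h1 := h a j hj hj'
  rw [← map_chainP, eval_map, ← aeval_def]
  exact h1

end ZC
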